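import Pool.Agent.Helper89.MS.Sheet

/-!
Project MS, package B3.
-/

set_option autoImplicit false

open Finset

namespace Pool.Agent.Helper2.MS

open _root_.MS

section

variable {t m : ℕ} {v : ℕ → ℝ} {F : Finset (Finset ℕ)}

/-- two members of `NN` of size `a`, `2 a = m + t`, which both miss `i < m`, meet in `t + 1` elements -/
lemma inter_ge (h1 : B1Stm) (ht : 1 ≤ t) (htm : t < m) (hG : Good t m v F) {S T : Finset ℕ}
    (hS : S ∈ NN m F) (hT : T ∈ NN m F) {i : ℕ} (hi : i < m) (hiS : i ∉ S) (hiT : i ∉ T) :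
    t + 1 ≤ #(S ∩ T) := by
  have hSF : S ∈ F := (mem_filter.1 hS).1
  have hTF : T ∈ F := (mem_filter.1 hT).1
  have h2 := hG.ti.2 S hSF T hTF
  rcases Nat.lt_or_ge t #(S ∩ T) with h | h
  · exact h
  · have h3 : #(S ∩ T) = t := le_antisymm h h2
    obtain ⟨h4, -⟩ := (h1 t m v F ht htm hG).2 S hS T hTF (mem_filter.1 hT).2.1 h3
    have h5 := card_union_add_card_inter S T
    have h6 : S ∪ T ⊆ range m := union_subset (hG.ti.1 S hSF) (hG.ti.1 T hTF)
    have h7 : S ∪ T = range m := by
      apply eq_of_subset_of_card_le h6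
      rw [card_range]
      omega
    have h8 : i ∈ S ∪ T := by rw [h7]; exact mem_range.2 hi
    rcases mem_union.1 h8 with h9 | h9
    · exact absurd h9 hiS
    · exact absurd h9 hiT

theorem B3 (h1 : B1Stm) : B3Stm := by
  classical
  intro t m v F ht htm hH hG S₀ hS₀ h2S
  set a := #S₀ with ha
  obtain ⟨hva, hta⟩ := (h1 t m v F ht htm hG).1 S₀ hS₀
  rw [← ha] at hva hta
  have hb1 := h1 t m v F ht htm hG
  -- the members of size `a`
  set Na := (NN m F).filter (fun S => #S = a) with hNa
  have hmem : ∀ S, S ∈ Na ↔ (S ∈ F ∧ m - 1 ∈ S ∧ S.erase (m - 1) ∉ F) ∧ #S = a := by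
    intro S
    rw [hNa, mem_filter, NN, mem_filter]
  have hNN : ∀ S ∈ Na, S ∈ NN m F := fun S hS => (mem_filter.1 hS).1
  have hpos : 0 < #Na := card_pos.2 ⟨S₀, mem_filter.2 ⟨hS₀, rfl⟩⟩
  have key : ∀ i ∈ range (m - 1),
      (#(Na.filter (fun S => i ∉ S)) : ℝ) * v (a - 1) ≤
        (#(Na.filter (fun S => i ∈ S)) : ℝ) * v a := by
    intro i hi
    have hi' : i < m - 1 := mem_range.1 hi
    set Ni := Na.filter (fun S => i ∉ S) with hNi
    set Mi := Na.filter (fun S => i ∈ S) with hMi
    have hNiNa : ∀ S ∈ Ni, S ∈ Na := fun S hS => (mem_filter.1 hS).1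
    let G := (F \ Mi) ∪ Ni.image (fun S => S.erase (m - 1))
    have hMiF : Mi ⊆ F := fun S hS => ((hmem S).1 (mem_filter.1 hS).1).1.1
    -- intersections
    have hA : ∀ S ∈ Ni, ∀ T ∈ F \ Mi, t ≤ #(S.erase (m - 1) ∩ T) := by
      intro S hS T hT
      obtain ⟨hTF, hTM⟩ := mem_sdiff.1 hT
      have hSNa := hNiNa S hS
      have hSF := ((hmem S).1 hSNa).1.1
      have h2 := hG.ti.2 S hSF T hTF
      by_cases hτ : m - 1 ∈ T
      · have h3 : S.erase (m - 1) ∩ T = (S ∩ T).erase (m - 1) := by
          rw [erase_inter]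
        rw [h3]
        have h4 : m - 1 ∈ S ∩ T := mem_inter.2 ⟨((hmem S).1 hSNa).1.2.1, hτ⟩
        rw [card_erase_of_mem h4]
        have h5 : t + 1 ≤ #(S ∩ T) := by
          rcases Nat.lt_or_ge t #(S ∩ T) with h | h
          · exact h
          · have h3 : #(S ∩ T) = t := le_antisymm h h2
            obtain ⟨h6, h7⟩ := hb1.2 S (hNN S hSNa) T hTF hτ h3
            have h8 : T ∈ Na := by
              rw [hNa, mem_filter]
              refine ⟨h7, ?_⟩
              have := ((hmem S).1 hSNa).2
              omega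
            have h9 : T ∈ Ni := by
              rw [hNi, mem_filter]
              refine ⟨h8, fun h10 => hTM (mem_filter.2 ⟨h8, h10⟩)⟩
            exact inter_ge h1 ht htm hG (hNN S hSNa) (hNN T h8) (i := i) (by omega)
              (mem_filter.1 hS).2 (mem_filter.1 h9).2
        omega
      · have h3 : S.erase (m - 1) ∩ T = S ∩ T := by
          rw [erase_inter, erase_eq_of_notMem]
          exact fun h => hτ (mem_inter.1 h).2
        rw [h3]
        exact h2
    have hTI : TI t m G := by
      constructor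
      · intro S hS
        rcases mem_union.1 hS with h | h
        · exact hG.ti.1 S (mem_sdiff.1 h).1
        · obtain ⟨T, hT, rfl⟩ := mem_image.1 h
          exact (erase_subset _ _).trans (hG.ti.1 T ((hmem T).1 (hNiNa T hT)).1.1)
      · intro S hS T hT
        rcases mem_union.1 hS with h | h
        · rcases mem_union.1 hT with h' | h'
          · exact hG.ti.2 S (mem_sdiff.1 h).1 T (mem_sdiff.1 h').1
          · obtain ⟨T', hT', rfl⟩ := mem_image.1 h'
            rw [inter_comm]
            exact hA T' hT' S h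
        · obtain ⟨S', hS', rfl⟩ := mem_image.1 h
          rcases mem_union.1 hT with h' | h'
          · exact hA S' hS' T h'
          · obtain ⟨T', hT', rfl⟩ := mem_image.1 h'
            have h3 : S'.erase (m - 1) ∩ T'.erase (m - 1) = (S' ∩ T').erase (m - 1) := by
              ext x
              simp only [mem_inter, mem_erase]
              tauto
            rw [h3]
            have h4 : m - 1 ∈ S' ∩ T' := mem_inter.2 ⟨((hmem S').1 (hNiNa S' hS')).1.2.1,
              ((hmem T').1 (hNiNa T' hT')).1.2.1⟩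
            rw [card_erase_of_mem h4]
            have h5 := inter_ge h1 ht htm hG (hNN S' (hNiNa S' hS')) (hNN T' (hNiNa T' hT'))
              (i := i) (by omega) (mem_filter.1 hS').2 (mem_filter.1 hT').2
            omega
    have hmx := hG.mx G hTI
    -- the weight of the new family
    have hdis : Disjoint (F \ Mi) (Ni.image (fun S => S.erase (m - 1))) := by
      rw [disjoint_left]
      intro S hS hS'
      obtain ⟨T, hT, rfl⟩ := mem_image.1 hS'
      exact ((hmem T).1 (hNiNa T hT)).1.2.2 (mem_sdiff.1 hS).1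
    have hinj : Set.InjOn (fun S : Finset ℕ => S.erase (m - 1)) (Ni : Set (Finset ℕ)) := by
      intro S hS T hT hST
      have h2 := ((hmem S).1 (hNiNa S hS)).1.2.1
      have h3 := ((hmem T).1 (hNiNa T hT)).1.2.1
      have h4 : insert (m - 1) (S.erase (m - 1)) = insert (m - 1) (T.erase (m - 1)) :=
        congrArg (insert (m - 1)) hST
      rwa [insert_erase h2, insert_erase h3] at h4
    have hw1 : wt v G = wt v (F \ Mi) + (#Ni : ℝ) * v (a - 1) := by
      rw [wt, sum_union hdis, sum_image hinj]
      congr 1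
      rw [sum_congr rfl (g := fun _ => v (a - 1)), sum_const, nsmul_eq_mul]
      intro S hS
      have h2 := (hmem S).1 (hNiNa S hS)
      rw [card_erase_of_mem h2.1.2.1, h2.2]
    have hw2 : wt v F = wt v (F \ Mi) + (#Mi : ℝ) * v a := by
      rw [wt, ← sum_sdiff hMiF]
      congr 1
      rw [sum_congr rfl (g := fun _ => v a), sum_const, nsmul_eq_mul]
      intro S hS
      rw [((hmem S).1 (mem_filter.1 hS).1).2]
    rw [hw1, hw2] at hmx
    linarith
  -- double counting
  have hsum := sum_le_sum key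
  rw [← sum_mul, ← sum_mul] at hsum
  have hc1 : ∑ i ∈ range (m - 1), (#(Na.filter (fun S => i ∉ S)) : ℝ) =
      (#Na : ℝ) * ((m : ℝ) - a) := by
    have h2 : ∑ i ∈ range (m - 1), #(Na.filter (fun S => i ∉ S)) =
        ∑ S ∈ Na, #((range (m - 1)).filter (fun i => i ∉ S)) := by
      simp only [card_filter]
      exact sum_comm
    have h3 : ∀ S ∈ Na, #((range (m - 1)).filter (fun i => i ∉ S)) = m - a := by
      intro S hS
      have h4 := (hmem S).1 hS
      have h5 : (range (m - 1)).filter (fun i => i ∉ S) = range m \ S := by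
        ext x
        simp only [mem_filter, mem_range, mem_sdiff]
        constructor
        · exact fun h => ⟨by omega, h.2⟩
        · rintro ⟨h6, h7⟩
          refine ⟨?_, h7⟩
          rcases Nat.lt_or_ge x (m - 1) with h8 | h8
          · exact h8
          · exfalso
            apply h7
            have : x = m - 1 := by omega
            rw [this]
            exact h4.1.2.1
      rw [h5, card_sdiff_of_subset (hG.ti.1 S h4.1.1), card_range, h4.2]
    have h4 : a ≤ m := by
      have h5 := card_le_card (hG.ti.1 S₀ (mem_filter.1 hS₀).1)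
      rw [card_range] at h5
      omega
    have h5 : ∑ i ∈ range (m - 1), #(Na.filter (fun S => i ∉ S)) = #Na * (m - a) := by
      rw [h2, sum_congr rfl h3, sum_const, smul_eq_mul]
    have h6 : ((∑ i ∈ range (m - 1), #(Na.filter (fun S => i ∉ S)) : ℕ) : ℝ) =
        ((#Na * (m - a) : ℕ) : ℝ) := by rw [h5]
    push_cast [Nat.cast_sub h4] at h6
    exact h6
  have hc2 : ∑ i ∈ range (m - 1), (#(Na.filter (fun S => i ∈ S)) : ℝ) =
      (#Na : ℝ) * ((a : ℝ) - 1) := by
    have h2 : ∑ i ∈ range (m - 1), #(Na.filter (fun S => i ∈ S)) =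
        ∑ S ∈ Na, #((range (m - 1)).filter (fun i => i ∈ S)) := by
      simp only [card_filter]
      exact sum_comm
    have h3 : ∀ S ∈ Na, #((range (m - 1)).filter (fun i => i ∈ S)) = a - 1 := by
      intro S hS
      have h4 := (hmem S).1 hS
      have h5 : (range (m - 1)).filter (fun i => i ∈ S) = S.erase (m - 1) := by
        ext x
        simp only [mem_filter, mem_range, mem_erase]
        constructor
        · exact fun h => ⟨by omega, h.2⟩
        · rintro ⟨h6, h7⟩
          have h8 := mem_range.1 (hG.ti.1 S h4.1.1 h7)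
          exact ⟨by omega, h7⟩
      rw [h5, card_erase_of_mem h4.1.2.1, h4.2]
    have h5 : ∑ i ∈ range (m - 1), #(Na.filter (fun S => i ∈ S)) = #Na * (a - 1) := by
      rw [h2, sum_congr rfl h3, sum_const, smul_eq_mul]
    have h6 : ((∑ i ∈ range (m - 1), #(Na.filter (fun S => i ∈ S)) : ℕ) : ℝ) =
        ((#Na * (a - 1) : ℕ) : ℝ) := by rw [h5]
    have h7 : 1 ≤ a := by omega
    push_cast [Nat.cast_sub h7] at h6
    exact h6
  rw [hc1, hc2] at hsum
  have hp : (0 : ℝ) < #Na := by exact_mod_cast hpos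
  have hfin : ((m : ℝ) - a) * v (a - 1) ≤ ((a : ℝ) - 1) * v a := by
    have h2 : (#Na : ℝ) * (((m : ℝ) - a) * v (a - 1)) ≤ (#Na : ℝ) * (((a : ℝ) - 1) * v a) := by
      nlinarith [hsum]
    exact le_of_mul_le_mul_left h2 hp
  obtain ⟨r, hr⟩ : ∃ r, a = t + r := ⟨a - t, by omega⟩
  have hm : m = t + 2 * r := by omega
  have hr1 : 1 ≤ r := by omega
  obtain ⟨c, hc⟩ : ∃ c, c + 1 = t + r := ⟨t + r - 1, by omega⟩
  have hac : a = c + 1 := by omega
  have hmr : (m : ℝ) - a = r := by
    rw [hm, hr]
    push_cast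
    ring
  have hcr : (a : ℝ) - 1 = c := by
    rw [hac]
    push_cast
    ring
  rw [hmr, hcr, hac, Nat.add_sub_cancel] at hfin
  refine ⟨r, c, hm, hr1, ?_, hc, hac, hfin⟩
  by_contra h2
  have ht1 : t = 1 := by omega
  have hcr' : c = r := by omega
  rw [hac, hcr'] at hva
  have h3 := hH.K0 r ht1 (by omega) hr1 hva
  rw [hcr'] at hfin
  have hr0 : (0 : ℝ) < r := by exact_mod_cast hr1
  nlinarith [le_of_mul_le_mul_left hfin hr0]

end

end Pool.Agent.Helper2.MS

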