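import Pool.Agent.Helper89.MS.Defs

/-!
Project MS, package COUNT.
-/

set_option autoImplicit false

open Finset

namespace Pool.Agent.Helper2.MS

open _root_.MS Polynomial

theorem coeff_prod_sets {n : ℕ} (s : Fin n → Finset ℕ) (k : ℕ) :
    (∏ i, ∑ a ∈ s i, (X : ℕ[X]) ^ a).coeff k =
      #((Fintype.piFinset s).filter (fun f => ∑ i, f i = k)) := by
  rw [Finset.prod_univ_sum, Polynomial.finsetSum_coeff, Finset.card_filter]
  refine Finset.sum_congr rfl fun f _ => ?_
  rw [Finset.prod_pow_eq_pow_sum, Polynomial.coeff_X_pow]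
  exact if_congr eq_comm rfl rfl

theorem count : COUNTStm := by
  classical
  intro n l k m hmn S hS A hA
  let s : Fin n → Finset ℕ := fun i =>
    if i ∈ S then Icc 1 l else if (i : ℕ) < m then {0} else insert 0 (Icc 1 l)
  have h1 : A = (Fintype.piFinset s).filter (fun f => ∑ i, f i = k) := by
    ext f
    rw [hA, Finset.mem_filter, Fintype.mem_piFinset]
    constructor
    · rintro ⟨⟨h2, h3⟩, h4⟩
      refine ⟨fun i => ?_, h3⟩
      have h5 : i ∈ (supp f).filter (fun i : Fin n => (i : ℕ) < m) ↔ i ∈ S := by rw [h4]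
      rw [Finset.mem_filter, supp, Finset.mem_filter] at h5
      have h6 := h2 i
      change f i ∈ (if i ∈ S then Icc 1 l else if (i : ℕ) < m then {0} else insert 0 (Icc 1 l))
      by_cases h7 : i ∈ S
      · have h8 := h5.2 h7
        rw [if_pos h7, Finset.mem_Icc]
        have h9 := h8.1.2
        omega
      · rw [if_neg h7]
        by_cases h8 : (i : ℕ) < m
        · rw [if_pos h8, Finset.mem_singleton]
          by_contra h9
          exact h7 (h5.1 ⟨⟨Finset.mem_univ _, h9⟩, h8⟩)
        · rw [if_neg h8, Finset.mem_insert, Finset.mem_Icc]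
          omega
    · rintro ⟨h2, h3⟩
      have h4 : ∀ i, f i ≤ l ∧ ((i : ℕ) < m → (f i ≠ 0 ↔ i ∈ S)) := by
        intro i
        have h5 := h2 i
        change f i ∈ (if i ∈ S then Icc 1 l else if (i : ℕ) < m then {0}
          else insert 0 (Icc 1 l)) at h5
        by_cases h7 : i ∈ S
        · rw [if_pos h7, Finset.mem_Icc] at h5
          refine ⟨h5.2, fun _ => ⟨fun _ => h7, fun _ => by omega⟩⟩
        · rw [if_neg h7] at h5
          by_cases h8 : (i : ℕ) < m
          · rw [if_pos h8, Finset.mem_singleton] at h5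
            refine ⟨by omega, fun _ => ⟨fun h9 => absurd h5 h9, fun h9 => absurd h9 h7⟩⟩
          · rw [if_neg h8, Finset.mem_insert, Finset.mem_Icc] at h5
            exact ⟨by omega, fun h9 => absurd h9 h8⟩
      refine ⟨⟨fun i => (h4 i).1, h3⟩, ?_⟩
      ext i
      rw [Finset.mem_filter, supp, Finset.mem_filter]
      constructor
      · rintro ⟨⟨-, h5⟩, h6⟩
        exact ((h4 i).2 h6).1 h5
      · intro h5
        have h6 := hS i h5
        exact ⟨⟨Finset.mem_univ _, ((h4 i).2 h6).2 h5⟩, h6⟩
  have h2 : ∀ i : Fin n, ∑ a ∈ s i, (X : ℕ[X]) ^ a =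
      if i ∈ S then P l else if (i : ℕ) < m then 1 else 1 + P l := by
    intro i
    change ∑ a ∈ (if i ∈ S then Icc 1 l else if (i : ℕ) < m then {0} else insert 0 (Icc 1 l)),
      (X : ℕ[X]) ^ a = _
    split_ifs
    · rfl
    · rw [Finset.sum_singleton, pow_zero]
    · rw [Finset.sum_insert, pow_zero, P]
      rw [Finset.mem_Icc]
      omega
  rw [h1, ← coeff_prod_sets, Finset.prod_congr rfl fun i _ => h2 i, Finset.prod_ite,
    Finset.prod_ite, Finset.prod_const, Finset.prod_const_one, one_mul, Finset.prod_const, W]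
  have h3 : #(Finset.univ.filter fun i : Fin n => i ∈ S) = #S := by
    congr 1
    ext i
    simp
  have h4 : #((Finset.univ.filter fun i : Fin n => i ∉ S).filter fun i : Fin n =>
      ¬ (i : ℕ) < m) = n - m := by
    have h5 : ((Finset.univ.filter fun i : Fin n => i ∉ S).filter fun i : Fin n =>
        ¬ (i : ℕ) < m) = Finset.univ.filter fun i : Fin n => ¬ (i : ℕ) < m := by
      ext i
      simp only [Finset.mem_filter, Finset.mem_univ, true_and]
      constructor
      · exact fun h => h.2
      · exact fun h => ⟨fun h' => h (hS i h'), h⟩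
    rw [h5]
    have h6 : #(Finset.univ.filter fun i : Fin n => (i : ℕ) < m) = m := by
      have h7 : (Finset.univ.filter fun i : Fin n => (i : ℕ) < m) =
          (Finset.univ : Finset (Fin m)).map (Fin.castLEEmb hmn) := by
        ext i
        simp only [Finset.mem_filter, Finset.mem_univ, true_and, Finset.mem_map]
        constructor
        · intro h
          exact ⟨⟨i, h⟩, rfl⟩
        · rintro ⟨j, rfl⟩
          exact j.2
      rw [h7, Finset.card_map, Finset.card_univ, Fintype.card_fin]
    have h8 := Finset.card_filter_add_card_filter_not (s := (Finset.univ : Finset (Fin n)))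
      (fun i : Fin n => (i : ℕ) < m)
    rw [h6, Finset.card_univ, Fintype.card_fin] at h8
    omega
  rw [h3, h4]

end Pool.Agent.Helper2.MS

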