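import Pool.Agent.Helper2.MS.R2

/-!
Project MS: the inequalities `K2`, `K0`, the vanishing `h0` and the real form of `R2`.
-/

set_option autoImplicit false

open Finset

namespace Pool.Agent.Helper2.MS

open _root_.MS Polynomial

theorem W_zero {k l c M : ℕ} (h : k < c) : W k l c M = 0 := by
  rcases Nat.eq_zero_or_pos l with rfl | hl
  · have hP : P 0 = 0 := by simp [P]
    rw [W, hP, zero_pow (by omega), zero_mul, Polynomial.coeff_zero]
  · by_contra hne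
    have h2 := (W_pos (k := k) hl c M).1 (Nat.pos_of_ne_zero hne)
    omega

theorem h0 : ∀ k l c M : ℕ, k < c → W k l c M = 0 := fun _ _ _ _ h => W_zero h

theorem hR2 : ∀ k l M c : ℕ, 2 ≤ l → 1 ≤ c → c + 1 ≤ k →
      ((M : ℝ) + c + 2 - k) * (W k l (c + 1) M : ℝ) ≤ ((k : ℝ) - c) * (W k l c M : ℝ) := by
  intro k l M c hl hc _
  have h := (R2 (k := k) (M := M) hl hc).1
  have h2 : (((M : ℤ) - k + c + 2 : ℤ) : ℝ) * ((W k l (c + 1) M : ℤ) : ℝ) ≤
      (((k : ℤ) - c : ℤ) : ℝ) * ((W k l c M : ℤ) : ℝ) := by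
    exact_mod_cast h
  push_cast at h2
  linarith

/-- `K2` for `a < b` -/
theorem K2_lt {k l t m n : ℕ} (ht : 1 ≤ t) (hmn : m ≤ n) (hl : 2 ≤ l) (hk : 2 * k ≤ n + t)
    {a b : ℕ} (hab : a < b) (hsum : a + b = m + t) (ha : t + 1 ≤ a)
    (hva : 0 < W k l a (n - m)) (hvb : 0 < W k l b (n - m)) :
    W k l a (n - m) * W k l b (n - m) < W k l (a - 1) (n - m) * W k l (b - 1) (n - m) := by
  have hbk : b ≤ k := ((W_pos (by omega) _ _).1 hvb).1
  obtain ⟨M, hM⟩ : ∃ M, M = n - m := ⟨_, rfl⟩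
  rw [← hM] at hva hvb ⊢
  obtain ⟨a', rfl⟩ : ∃ i, a = i + 1 := ⟨a - 1, by omega⟩
  obtain ⟨b', rfl⟩ : ∃ i, b = i + 1 := ⟨b - 1, by omega⟩
  rw [Nat.add_sub_cancel, Nat.add_sub_cancel]
  have h1 := (R2 (k := k) (M := M) (c := a') hl (by omega)).2 (by omega) (by omega) hva
  have h2 := (R2 (k := k) (M := M) (c := b') hl (by omega)).1
  zify at hva hvb ⊢
  set wa := (W k l (a' + 1) M : ℤ)
  set wb := (W k l (b' + 1) M : ℤ)
  have hwa1 : (0 : ℤ) ≤ (W k l a' M : ℤ) := Int.natCast_nonneg _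
  set wa1 := (W k l a' M : ℤ)
  set wb1 := (W k l b' M : ℤ)
  have hx : (1 : ℤ) ≤ (k : ℤ) - b' := by omega
  have hy : (1 : ℤ) ≤ (k : ℤ) - a' := by omega
  have h3 : ((k : ℤ) - b') * wa ≤ ((M : ℤ) - k + a' + 2) * wa :=
    mul_le_mul_of_nonneg_right (by omega) hva.le
  have h4 : ((k : ℤ) - a') * wb ≤ ((M : ℤ) - k + b' + 2) * wb :=
    mul_le_mul_of_nonneg_right (by omega) hvb.le
  have h5 : ((k : ℤ) - b') * wa < ((k : ℤ) - a') * wa1 := lt_of_le_of_lt h3 h1
  have h6 : ((k : ℤ) - a') * wb ≤ ((k : ℤ) - b') * wb1 := h4.trans h2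
  have h7 : 0 < ((k : ℤ) - a') * wb := mul_pos (by omega) hvb
  have h8 : (((k : ℤ) - b') * wa) * (((k : ℤ) - a') * wb) <
      (((k : ℤ) - a') * wa1) * (((k : ℤ) - b') * wb1) :=
    calc _ < (((k : ℤ) - a') * wa1) * (((k : ℤ) - a') * wb) := mul_lt_mul_of_pos_right h5 h7
      _ ≤ _ := mul_le_mul_of_nonneg_left h6 (mul_nonneg (by omega) hwa1)
  have h9 : 0 < ((k : ℤ) - b') * ((k : ℤ) - a') := mul_pos (by omega) (by omega)
  refine lt_of_mul_lt_mul_left ?_ h9.le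
  calc _ = (((k : ℤ) - b') * wa) * (((k : ℤ) - a') * wb) := by ring
    _ < _ := h8
    _ = _ := by ring

theorem hK2 : ∀ k l t m n : ℕ, 1 ≤ t → t < m → m ≤ n → t ≤ k → 2 ≤ l → 2 * k ≤ n + t →
      ∀ a b : ℕ, a ≠ b → a + b = m + t → t + 1 ≤ a → t + 1 ≤ b → 0 < W k l a (n - m) →
        0 < W k l b (n - m) →
        W k l a (n - m) * W k l b (n - m) <
          W k l (a - 1) (n - m) * W k l (b - 1) (n - m) := by
  intro k l t m n ht _ hmn _ hl hk a b hab hsum ha hb hva hvb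
  rcases lt_or_gt_of_ne hab with h | h
  · exact K2_lt ht hmn hl hk h hsum ha hva hvb
  · have := K2_lt ht hmn hl hk h (by omega) hb hvb hva
    rw [mul_comm (W k l a (n - m)), mul_comm (W k l (a - 1) (n - m))]
    exact this

lemma W_self {l : ℕ} (hl : 1 ≤ l) (c M : ℕ) : W c l c M = 1 := by
  have hP : P l = X * ∑ i ∈ range l, X ^ i := by
    rw [P, Finset.mul_sum]
    refine Finset.sum_bij (fun i _ => i - 1) ?_ ?_ ?_ ?_
    · intro i hi
      rw [mem_Icc] at hi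
      rw [mem_range]
      omega
    · intro i hi j hj hij
      rw [mem_Icc] at hi hj
      omega
    · intro j hj
      rw [mem_range] at hj
      exact ⟨j + 1, mem_Icc.2 ⟨by omega, by omega⟩, by omega⟩
    · intro i hi
      rw [mem_Icc] at hi
      obtain ⟨j, rfl⟩ : ∃ j, i = j + 1 := ⟨i - 1, by omega⟩
      rw [Nat.add_sub_cancel, pow_succ']
  have h1 : (∑ i ∈ range l, (X : ℕ[X]) ^ i).coeff 0 = 1 := by
    rw [Polynomial.finsetSum_coeff]
    simp only [Polynomial.coeff_X_pow]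
    rw [Finset.sum_ite_eq, if_pos (mem_range.2 (by omega))]
  have h2 : (1 + P l).coeff 0 = 1 := by
    rw [coeff_Q, if_pos (Nat.zero_le _)]
  rw [W, hP, mul_pow, mul_assoc]
  have h3 := Polynomial.coeff_X_pow_mul ((∑ i ∈ range l, (X : ℕ[X]) ^ i) ^ c *
    (1 + X * ∑ i ∈ range l, (X : ℕ[X]) ^ i) ^ M) c 0
  rw [zero_add] at h3
  rw [h3, ← hP, Polynomial.mul_coeff_zero, Polynomial.coeff_zero_eq_eval_zero,
    Polynomial.coeff_zero_eq_eval_zero, Polynomial.eval_pow, Polynomial.eval_pow,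
    ← Polynomial.coeff_zero_eq_eval_zero, ← Polynomial.coeff_zero_eq_eval_zero, h1, h2]
  simp

theorem hK0 : ∀ k l n r : ℕ, 1 + 2 * r ≤ n → 3 ≤ k → 2 ≤ l → 2 * k ≤ n + 1 → 1 ≤ r →
      0 < W k l (r + 1) (n - (1 + 2 * r)) →
      W k l (r + 1) (n - (1 + 2 * r)) < W k l r (n - (1 + 2 * r)) := by
  intro k l n r hn hk3 hl hk hr hv
  have hrk : r + 1 ≤ k := ((W_pos (by omega) _ _).1 hv).1
  obtain ⟨M, hM⟩ : ∃ M, M = n - (1 + 2 * r) := ⟨_, rfl⟩
  rw [← hM] at hv ⊢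
  rcases Nat.lt_or_ge (r + 1) k with h | h
  · have h1 := (R2 (k := k) (M := M) (c := r) hl hr).2 (by omega) (by omega) hv
    zify at hv ⊢
    have h2 : ((k : ℤ) - r) * (W k l (r + 1) M : ℤ) ≤
        ((M : ℤ) - k + r + 2) * (W k l (r + 1) M : ℤ) :=
      mul_le_mul_of_nonneg_right (by omega) hv.le
    exact lt_of_mul_lt_mul_left (lt_of_le_of_lt h2 h1) (by omega)
  · obtain rfl : k = r + 1 := by omega
    have h1 := R2_eq (r + 1) l r M
    rw [W_self (by omega)] at h1 ⊢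
    have h2 : 2 ≤ (EX l r M + EX l (r + 1) M).coeff (r + 1) := by
      rw [Polynomial.coeff_add, EX, Polynomial.coeff_add, Polynomial.coeff_natCast_mul]
      have h3 : 0 < (P l ^ (r - 1) * Pe l * (1 + P l) ^ M).coeff (r + 1) := by
        refine mul_pos_coeff (i := r + 1) (j := 0) ?_ ?_ (by omega)
        · refine mul_pos_coeff (i := r - 1) (j := 2) ?_ ?_ (by omega)
          · have := (supp_PQ (l := l) (by omega) (r - 1) 0 (r - 1)).2 ⟨le_rfl, by nlinarith⟩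
            simpa using this
          · rw [coeff_Pe, if_pos ⟨by omega, hl⟩]
            omega
        · exact (supp_Q l M 0).2 (Nat.zero_le _)
      have h4 : r * 1 ≤ r * (P l ^ (r - 1) * Pe l * (1 + P l) ^ M).coeff (r + 1) :=
        Nat.mul_le_mul_left _ h3
      rw [Nat.cast_id]
      omega
    zify at h2
    push_cast at h1 ⊢
    have h5 : (W (r + 1) l r M : ℤ) = M + ((EX l r M + EX l (r + 1) M).coeff (r + 1) : ℤ) := by
      linear_combination h1
    zify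
    rw [h5]
    have : (0 : ℤ) ≤ M := Int.natCast_nonneg _
    linarith

end Pool.Agent.Helper2.MS

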