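import Pool.Agent.Helper89.MS.Sheet

/-!
Project MS, inequalities for the numbers `W`: the support, `R2`, `H0`, `K2`, `K0`.
-/

set_option autoImplicit false

open Finset

namespace Pool.Agent.Helper2.MS

open _root_.MS Polynomial

/-- `∑ (i - 1) x ^ i` -/
noncomputable def Pe (l : ℕ) : ℕ[X] := ∑ i ∈ Icc 1 l, ((i - 1 : ℕ) : ℕ[X]) * X ^ i

lemma coeff_P (l j : ℕ) : (P l).coeff j = if 1 ≤ j ∧ j ≤ l then 1 else 0 := by
  rw [P, Polynomial.finsetSum_coeff]
  simp only [Polynomial.coeff_X_pow]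
  rw [Finset.sum_ite_eq]
  simp only [mem_Icc]

lemma coeff_Pe (l j : ℕ) : (Pe l).coeff j = if 1 ≤ j ∧ j ≤ l then j - 1 else 0 := by
  rw [Pe, Polynomial.finsetSum_coeff]
  have h : ∀ i ∈ Icc 1 l, (((i - 1 : ℕ) : ℕ[X]) * X ^ i).coeff j = if j = i then i - 1 else 0 := by
    intro i _
    rw [← Polynomial.C_eq_natCast, Polynomial.coeff_C_mul, Polynomial.coeff_X_pow]
    split_ifs <;> simp
  rw [Finset.sum_congr rfl h, Finset.sum_ite_eq]
  simp only [mem_Icc]

lemma coeff_Q (l j : ℕ) : (1 + P l).coeff j = if j ≤ l then 1 else 0 := by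
  rw [Polynomial.coeff_add, coeff_P, Polynomial.coeff_one]
  by_cases h0 : j = 0
  · subst h0
    simp
  · rw [if_neg h0, zero_add]
    refine if_congr ⟨fun h => h.2, fun h => ⟨by omega, h⟩⟩ rfl rfl

lemma mul_pos_coeff {p q : ℕ[X]} {i j k : ℕ} (hi : 0 < p.coeff i) (hj : 0 < q.coeff j)
    (hk : i + j = k) : 0 < (p * q).coeff k := by
  rw [Polynomial.coeff_mul]
  have h : (i, j) ∈ antidiagonal k := by rw [HasAntidiagonal.mem_antidiagonal]; exact hk
  have h2 := Finset.single_le_sum (f := fun x : ℕ × ℕ => p.coeff x.1 * q.coeff x.2)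
    (fun x _ => Nat.zero_le _) h
  exact lt_of_lt_of_le (Nat.mul_pos hi hj) h2

lemma exists_of_mul_pos {p q : ℕ[X]} {k : ℕ} (h : 0 < (p * q).coeff k) :
    ∃ i j, i + j = k ∧ 0 < p.coeff i ∧ 0 < q.coeff j := by
  rw [Polynomial.coeff_mul] at h
  obtain ⟨x, hx, hx2⟩ := Finset.exists_ne_zero_of_sum_ne_zero h.ne'
  refine ⟨x.1, x.2, HasAntidiagonal.mem_antidiagonal.1 hx, ?_, ?_⟩
  · exact Nat.pos_of_ne_zero fun h0 => hx2 (by rw [h0, zero_mul])
  · exact Nat.pos_of_ne_zero fun h0 => hx2 (by rw [h0, mul_zero])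

lemma supp_Q (l : ℕ) : ∀ (M k : ℕ), 0 < ((1 + P l) ^ M).coeff k ↔ k ≤ l * M := by
  intro M
  induction M with
  | zero =>
    intro k
    rw [pow_zero, Polynomial.coeff_one, Nat.mul_zero]
    split_ifs with h <;> omega
  | succ M ih =>
    intro k
    rw [pow_succ]
    constructor
    · intro h
      obtain ⟨i, j, hij, hi, hj⟩ := exists_of_mul_pos h
      rw [ih] at hi
      rw [coeff_Q] at hj
      split_ifs at hj with h2
      · rw [Nat.mul_succ]
        omega
      · omega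
    · intro h
      rw [Nat.mul_succ] at h
      rcases Nat.lt_or_ge k l with h1 | h1
      · refine mul_pos_coeff (i := 0) (j := k) ((ih 0).2 (Nat.zero_le _)) ?_ (Nat.zero_add k)
        rw [coeff_Q, if_pos h1.le]
        exact Nat.one_pos
      · refine mul_pos_coeff (i := k - l) (j := l) ((ih _).2 (by omega)) ?_ (by omega)
        rw [coeff_Q, if_pos le_rfl]
        exact Nat.one_pos

/-- the support -/
lemma supp_PQ {l : ℕ} (hl : 1 ≤ l) : ∀ (c M k : ℕ),
    0 < ((P l) ^ c * (1 + P l) ^ M).coeff k ↔ c ≤ k ∧ k ≤ l * (c + M) := by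
  intro c
  induction c with
  | zero =>
    intro M k
    rw [pow_zero, one_mul, supp_Q, Nat.zero_add]
    exact ⟨fun h => ⟨Nat.zero_le _, h⟩, fun h => h.2⟩
  | succ c ih =>
    intro M k
    rw [pow_succ, mul_assoc, mul_comm (P l), ← mul_assoc]
    have h0 : l * (c + 1 + M) = l * (c + M) + l := by ring
    rw [h0]
    constructor
    · intro h
      obtain ⟨i, j, hij, hi, hj⟩ := exists_of_mul_pos h
      rw [ih] at hi
      rw [coeff_P] at hj
      split_ifs at hj with h2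
      · omega
      · omega
    · rintro ⟨h1, h2⟩
      rcases Nat.lt_or_ge (k - c) l with h3 | h3
      · refine mul_pos_coeff (i := c) (j := k - c) ((ih M c).2 ⟨le_rfl, ?_⟩) ?_ (by omega)
        · have : c * 1 ≤ (c + M) * l := Nat.mul_le_mul (by omega) hl
          rw [mul_comm l]
          omega
        · rw [coeff_P, if_pos ⟨by omega, by omega⟩]
          exact Nat.one_pos
      · refine mul_pos_coeff (i := k - l) (j := l) ((ih M _).2 ⟨by omega, by omega⟩) ?_ (by omega)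
        rw [coeff_P, if_pos ⟨hl, le_rfl⟩]
        exact Nat.one_pos

lemma W_pos {k l : ℕ} (hl : 1 ≤ l) (c M : ℕ) : 0 < W k l c M ↔ c ≤ k ∧ k ≤ l * (c + M) :=
  supp_PQ hl c M k

/-- the derivative of `P` -/
lemma X_mul_derivative_P (l : ℕ) : X * derivative (P l) = P l + Pe l := by
  ext j
  rcases Nat.eq_zero_or_pos j with rfl | hj
  · rw [Polynomial.coeff_add, coeff_P, coeff_Pe]
    simp
  · obtain ⟨j, rfl⟩ : ∃ i, j = i + 1 := ⟨j - 1, by omega⟩
    rw [Polynomial.coeff_X_mul, Polynomial.coeff_derivative, Polynomial.coeff_add, coeff_P, coeff_Pe]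
    split_ifs with h
    · push_cast
      omega
    · simp

/-- the sum of the excesses -/
noncomputable def EX (l c M : ℕ) : ℕ[X] :=
  (c : ℕ[X]) * ((P l) ^ (c - 1) * Pe l * (1 + P l) ^ M) +
    (M : ℕ[X]) * ((P l) ^ c * (1 + P l) ^ (M - 1) * Pe l)

lemma coeff_X_mul_derivative (A : ℕ[X]) (k : ℕ) : (X * derivative A).coeff k = k * A.coeff k := by
  rcases Nat.eq_zero_or_pos k with rfl | hk
  · simp
  · obtain ⟨j, rfl⟩ : ∃ i, k = i + 1 := ⟨k - 1, by omega⟩
    rw [Polynomial.coeff_X_mul, Polynomial.coeff_derivative]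
    push_cast
    ring

lemma X_mul_derivative_PQ (l c M : ℕ) :
    X * derivative ((P l) ^ c * (1 + P l) ^ M) =
      (c : ℕ[X]) * ((P l) ^ c * (1 + P l) ^ M) +
        (M : ℕ[X]) * ((P l) ^ (c + 1) * (1 + P l) ^ (M - 1)) + EX l c M := by
  have hd := X_mul_derivative_P l
  have h1 : X * derivative ((P l) ^ c) =
      (c : ℕ[X]) * (P l) ^ c + (c : ℕ[X]) * ((P l) ^ (c - 1) * Pe l) := by
    rcases Nat.eq_zero_or_pos c with rfl | hc
    · simp
    · obtain ⟨c, rfl⟩ : ∃ i, c = i + 1 := ⟨c - 1, by omega⟩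
      rw [Polynomial.derivative_pow, Nat.add_sub_cancel]
      calc X * (C ((c + 1 : ℕ) : ℕ) * P l ^ c * derivative (P l)) =
          C ((c + 1 : ℕ) : ℕ) * P l ^ c * (X * derivative (P l)) := by ring
        _ = _ := by
          have hC : (C ((c + 1 : ℕ) : ℕ) : ℕ[X]) = ((c + 1 : ℕ) : ℕ[X]) := Polynomial.C_eq_natCast _
          rw [hd]
          erw [hC]
          push_cast
          ring
  have h2 : X * derivative ((1 + P l) ^ M) =
      (M : ℕ[X]) * ((1 + P l) ^ (M - 1) * (P l + Pe l)) := by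
    rcases Nat.eq_zero_or_pos M with rfl | hM
    · simp
    · obtain ⟨M, rfl⟩ : ∃ i, M = i + 1 := ⟨M - 1, by omega⟩
      rw [Polynomial.derivative_pow, Nat.add_sub_cancel]
      calc X * (C ((M + 1 : ℕ) : ℕ) * (1 + P l) ^ M * derivative (1 + P l)) =
          C ((M + 1 : ℕ) : ℕ) * (1 + P l) ^ M * (X * derivative (1 + P l)) := by ring
        _ = _ := by
          have hC : (C ((M + 1 : ℕ) : ℕ) : ℕ[X]) = ((M + 1 : ℕ) : ℕ[X]) := Polynomial.C_eq_natCast _
          rw [Polynomial.derivative_add, Polynomial.derivative_one, zero_add, hd]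
          erw [hC]
          push_cast
          ring
  rw [Polynomial.derivative_mul, mul_add, ← mul_assoc, h1]
  calc _ = ((c : ℕ[X]) * (P l) ^ c + (c : ℕ[X]) * ((P l) ^ (c - 1) * Pe l)) * (1 + P l) ^ M +
        P l ^ c * (X * derivative ((1 + P l) ^ M)) := by ring
    _ = _ := by
      rw [h2, EX, pow_succ]
      ring

/-- the rest in `R2` -/
noncomputable def Rest (l c' M : ℕ) (X' R' D : ℕ[X]) : ℕ[X] :=
  (P l) ^ (c' + 1) * D * (1 + P l) ^ M + (c' : ℕ[X]) * ((P l) ^ (c' + 1) * Pe l * (1 + P l) ^ M) +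
    (P l) ^ c' * (X' * D + (X' ^ 2 + R') * Pe l) * (1 + P l) ^ M +
    (c' : ℕ[X]) * ((P l) ^ c' * Pe l * (1 + P l) ^ M) +
    (P l) ^ c' * (R' + D) * (1 + P l) ^ M

lemma EX_eq (l c' M : ℕ) (R' D : ℕ[X]) (hP : P l = X + (X ^ 2 + R'))
    (hPe : Pe l = (X ^ 2 + R') + D) :
    EX l (c' + 1) M + EX l (c' + 2) M = (P l) ^ (c' + 2) * (1 + P l) ^ M + (Rest l c' M X R' D +
      (M : ℕ[X]) * ((P l) ^ (c' + 2) * (1 + P l) ^ (M - 1) * Pe l) +
      (M : ℕ[X]) * ((P l) ^ (c' + 1) * (1 + P l) ^ (M - 1) * Pe l)) := by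
  rw [EX, EX, Rest, Nat.add_sub_cancel]
  have h1 : c' + 2 - 1 = c' + 1 := rfl
  rw [h1]
  generalize (1 + P l) ^ M = qM
  generalize (1 + P l) ^ (M - 1) = qN
  rw [pow_succ (P l) (c' + 1), pow_succ (P l) c']
  generalize (P l) ^ c' = p
  rw [hPe, hP]
  push_cast
  ring

lemma exists_R' {l : ℕ} (hl : 2 ≤ l) : ∃ R' D : ℕ[X], P l = X + (X ^ 2 + R') ∧
    Pe l = (X ^ 2 + R') + D := by
  refine ⟨∑ i ∈ Icc 3 l, X ^ i, ∑ i ∈ Icc 3 l, ((i - 2 : ℕ) : ℕ[X]) * X ^ i, ?_, ?_⟩
  · ext j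
    rw [coeff_P, Polynomial.coeff_add, Polynomial.coeff_add, Polynomial.finsetSum_coeff]
    simp only [Polynomial.coeff_X_pow, Polynomial.coeff_X]
    rw [Finset.sum_ite_eq]
    simp only [mem_Icc]
    split_ifs <;> omega
  · ext j
    have h : ∀ i ∈ Icc 3 l, (((i - 2 : ℕ) : ℕ[X]) * X ^ i).coeff j =
        if j = i then i - 2 else 0 := by
      intro i _
      rw [← Polynomial.C_eq_natCast, Polynomial.coeff_C_mul, Polynomial.coeff_X_pow]
      split_ifs <;> simp
    rw [coeff_Pe, Polynomial.coeff_add, Polynomial.coeff_add, Polynomial.finsetSum_coeff,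
      Polynomial.finsetSum_coeff, Finset.sum_congr rfl h]
    simp only [Polynomial.coeff_X_pow]
    rw [Finset.sum_ite_eq, Finset.sum_ite_eq]
    simp only [mem_Icc]
    split_ifs <;> omega

/-- the identity behind `R2` -/
lemma R2_eq (k l c M : ℕ) : ((k : ℤ) - c) * W k l c M =
    ((M : ℤ) - k + c + 1) * W k l (c + 1) M + ((EX l c M + EX l (c + 1) M).coeff k : ℤ) := by
  have h1 := congrArg (fun p : ℕ[X] => p.coeff k) (X_mul_derivative_PQ l c M)
  have h2 := congrArg (fun p : ℕ[X] => p.coeff k) (X_mul_derivative_PQ l (c + 1) M)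
  simp only [coeff_X_mul_derivative, Polynomial.coeff_add, Polynomial.coeff_natCast_mul] at h1 h2
  have h3 : M * ((P l) ^ (c + 1) * (1 + P l) ^ (M - 1)).coeff k +
      M * ((P l) ^ (c + 1 + 1) * (1 + P l) ^ (M - 1)).coeff k =
      M * ((P l) ^ (c + 1) * (1 + P l) ^ M).coeff k := by
    rcases Nat.eq_zero_or_pos M with rfl | hM
    · simp
    · obtain ⟨M, rfl⟩ : ∃ i, M = i + 1 := ⟨M - 1, by omega⟩
      rw [Nat.add_sub_cancel, ← mul_add, ← Polynomial.coeff_add]
      congr 2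
      ring
  change ((k : ℤ) - c) * (((P l) ^ c * (1 + P l) ^ M).coeff k : ℕ) =
    ((M : ℤ) - k + c + 1) * (((P l) ^ (c + 1) * (1 + P l) ^ M).coeff k : ℕ) + _
  rw [Polynomial.coeff_add]
  generalize ((P l) ^ c * (1 + P l) ^ M).coeff k = w0 at *
  generalize ((P l) ^ (c + 1) * (1 + P l) ^ M).coeff k = w1 at *
  generalize ((P l) ^ (c + 1) * (1 + P l) ^ (M - 1)).coeff k = e1 at *
  generalize ((P l) ^ (c + 1 + 1) * (1 + P l) ^ (M - 1)).coeff k = e2 at *
  generalize (EX l c M).coeff k = x0 at *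
  generalize (EX l (c + 1) M).coeff k = x1 at *
  zify at h1 h2 h3
  push_cast
  linear_combination h1 + h2 + h3

/-- `R2` -/
theorem R2 {k l c M : ℕ} (hl : 2 ≤ l) (hc : 1 ≤ c) :
    ((M : ℤ) - k + c + 2) * W k l (c + 1) M ≤ ((k : ℤ) - c) * W k l c M ∧
    (c + 2 ≤ k → 1 ≤ M → 0 < W k l (c + 1) M →
      ((M : ℤ) - k + c + 2) * W k l (c + 1) M < ((k : ℤ) - c) * W k l c M) := by
  obtain ⟨c', rfl⟩ : ∃ i, c = i + 1 := ⟨c - 1, by omega⟩
  obtain ⟨R', D, hP, hPe⟩ := exists_R' hl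
  have h1 := R2_eq k l (c' + 1) M
  rw [EX_eq l c' M R' D hP hPe] at h1
  have h2 : (((P l) ^ (c' + 2) * (1 + P l) ^ M).coeff k : ℤ) = (W k l (c' + 1 + 1) M : ℤ) := rfl
  rw [Polynomial.coeff_add] at h1
  push_cast [h2] at h1
  set w1 := (W k l (c' + 1 + 1) M : ℤ)
  constructor
  · push_cast
    have h3 : (0 : ℤ) ≤ ((Rest l c' M X R' D +
      (M : ℕ[X]) * ((P l) ^ (c' + 2) * (1 + P l) ^ (M - 1) * Pe l) +
      (M : ℕ[X]) * ((P l) ^ (c' + 1) * (1 + P l) ^ (M - 1) * Pe l)).coeff k : ℕ) :=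
      Int.natCast_nonneg _
    linarith
  · intro hk hM hw
    push_cast
    have h3 : 0 < (Rest l c' M X R' D +
      (M : ℕ[X]) * ((P l) ^ (c' + 2) * (1 + P l) ^ (M - 1) * Pe l) +
      (M : ℕ[X]) * ((P l) ^ (c' + 1) * (1 + P l) ^ (M - 1) * Pe l)).coeff k := by
      rw [Polynomial.coeff_add, Polynomial.coeff_add, Polynomial.coeff_natCast_mul,
        Polynomial.coeff_natCast_mul, Nat.cast_id]
      rw [W_pos (by omega)] at hw
      obtain ⟨M, rfl⟩ : ∃ i, M = i + 1 := ⟨M - 1, by omega⟩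
      rw [Nat.add_sub_cancel]
      have e1 : l * (c' + 1 + 1 + (M + 1)) = l * (c' + 1 + M) + 2 * l := by ring
      have e2 : l * (c' + 2 + M) = l * (c' + 1 + M) + l := by ring
      have e3 : c' + 1 ≤ l * (c' + 1 + M) := by
        have : 1 * (c' + 1) ≤ l * (c' + 1 + M) := Nat.mul_le_mul (by omega) (by omega)
        omega
      have e4 : 2 * (c' + 1) ≤ l * (c' + 1 + M) := Nat.mul_le_mul hl (by omega)
      rcases Nat.lt_or_ge (l * (c' + 1 + M) + l) k with h4 | h4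
      · have h5 : 0 < ((P l) ^ (c' + 2) * (1 + P l) ^ M * Pe l).coeff k := by
          refine mul_pos_coeff (i := k - l) (j := l) ((supp_PQ (by omega) _ _ _).2
            ⟨by omega, by omega⟩) ?_ (by omega)
          rw [coeff_Pe, if_pos ⟨by omega, le_rfl⟩]
          omega
        have h6 : 0 < (M + 1) * ((P l) ^ (c' + 2) * (1 + P l) ^ M * Pe l).coeff k :=
          Nat.mul_pos (by omega) h5
        omega
      · have h5 : 0 < ((P l) ^ (c' + 1) * (1 + P l) ^ M * Pe l).coeff k := by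
          rcases Nat.lt_or_ge (k - (c' + 1)) l with h7 | h7
          · refine mul_pos_coeff (i := c' + 1) (j := k - (c' + 1)) ((supp_PQ (by omega) _ _ _).2
              ⟨le_rfl, e3⟩) ?_ (by omega)
            rw [coeff_Pe, if_pos ⟨by omega, by omega⟩]
            omega
          · refine mul_pos_coeff (i := k - l) (j := l) ((supp_PQ (by omega) _ _ _).2
              ⟨by omega, by omega⟩) ?_ (by omega)
            rw [coeff_Pe, if_pos ⟨by omega, le_rfl⟩]
            omega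
        have h6 : 0 < (M + 1) * ((P l) ^ (c' + 1) * (1 + P l) ^ M * Pe l).coeff k :=
          Nat.mul_pos (by omega) h5
        omega
    have h4 : (0 : ℤ) < ((Rest l c' M X R' D +
      (M : ℕ[X]) * ((P l) ^ (c' + 2) * (1 + P l) ^ (M - 1) * Pe l) +
      (M : ℕ[X]) * ((P l) ^ (c' + 1) * (1 + P l) ^ (M - 1) * Pe l)).coeff k : ℕ) := by
      exact_mod_cast h3
    linarith

end Pool.Agent.Helper2.MS

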